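import Mathlib
import Pool.Agent.Y896.HS.B
import Pool.Agent.W345.EGT4

/-!
# The torus part for homogeneous spaces (adaptation of `W345/EGT2-4`)
-/

set_option autoImplicit false

open Matrix MeasureTheory
open scoped Matrix.Norms.Frobenius ContDiff

namespace Pool.Agent.Y170.HS

open Pool.Agent.W544.EG (Mat LieAlg Gs BL IsLen)
open Pool.Agent.W345.EGT (Proj commute_lie exists_cover exists_measure mem_of_lat comm_le)
open Pool.Agent.Y896.HS

variable {N k : ℕ} {G H : Subgroup (unitaryGroup (Fin N) ℂ)} {p : Mat N →ₗ[ℝ] Mat N}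

theorem comb_lie (hG : IsClosed (G : Set (unitaryGroup (Fin N) ℂ))) (g : InvMetric G H k)
    (a : EuclideanSpace ℝ (Fin k)) : comb g a ∈ LieAlg G := by
  obtain ⟨L, hL⟩ := exists_lie hG
  rw [← hL]
  show (∑ i, a i • g.X i) ∈ L
  refine Submodule.sum_mem _ fun i _ => Submodule.smul_mem _ _ ?_
  have := g.mem i
  rw [← hL] at this
  exact this

/-- `θ a = exp (p (∑ aᵢ Xᵢ))` -/
noncomputable def th (p : Mat N →ₗ[ℝ] Mat N) (g : InvMetric G H k)
    (a : EuclideanSpace ℝ (Fin k)) : Mat N := NormedSpace.exp (p (comb g a))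

theorem th_add (hG : IsClosed (G : Set (unitaryGroup (Fin N) ℂ))) (hp : Proj G p)
    (g : InvMetric G H k) (a b : EuclideanSpace ℝ (Fin k)) :
    th p g (a + b) = th p g a * th p g b := by
  unfold th
  rw [map_add, map_add]
  have hc : Commute (p (comb g a)) (p (comb g b)) :=
    commute_lie (hp.comm _ (comb_lie hG g a)) (hp.mem _ (comb_lie hG g b))
  exact Matrix.exp_add_of_commute _ _ hc

theorem th_zero (g : InvMetric G H k) : th p g 0 = 1 := by
  unfold th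
  simp

theorem th_mem (hG : IsClosed (G : Set (unitaryGroup (Fin N) ℂ))) (hp : Proj G p)
    (g : InvMetric G H k) (a : EuclideanSpace ℝ (Fin k)) :
    ∃ u ∈ G, ((u : unitaryGroup (Fin N) ℂ) : Mat N) = th p g a := by
  obtain ⟨u, hu, hue⟩ := hp.mem _ (comb_lie hG g a) 1
  exact ⟨u, hu, by rw [hue, one_smul]; rfl⟩

theorem th_comm (hG : IsClosed (G : Set (unitaryGroup (Fin N) ℂ))) (hp : Proj G p)
    (g : InvMetric G H k) (a : EuclideanSpace ℝ (Fin k))
    {u : unitaryGroup (Fin N) ℂ} (hu : u ∈ G) : (u : Mat N) * th p g a = th p g a * u := by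
  have h := hp.comm _ (comb_lie hG g a) u hu
  exact (Commute.exp_right (show Commute (u : Mat N) (p (comb g a)) from h) :)

/-- the subgroup `[G,G] H` -/
def DH (G H : Subgroup (unitaryGroup (Fin N) ℂ)) (hHG : H ≤ G) :
    Subgroup (unitaryGroup (Fin N) ℂ) where
  carrier := {w | ∃ d ∈ ⁅G, G⁆, ∃ h ∈ H, w = d * h}
  mul_mem' := by
    rintro _ _ ⟨d, hd, h, hh, rfl⟩ ⟨d', hd', h', hh', rfl⟩
    have h1 : h * d' * h⁻¹ * d'⁻¹ ∈ ⁅G, G⁆ :=
      Subgroup.commutator_mem_commutator (hHG hh) (comm_le hd')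
    refine ⟨d * ((h * d' * h⁻¹ * d'⁻¹) * d'), mul_mem hd (mul_mem h1 hd'), h * h',
      mul_mem hh hh', ?_⟩
    group
  one_mem' := ⟨1, one_mem _, 1, one_mem _, by rw [one_mul]⟩
  inv_mem' := by
    rintro _ ⟨d, hd, h, hh, rfl⟩
    have h1 : h⁻¹ * d⁻¹ * h⁻¹⁻¹ * d⁻¹⁻¹ ∈ ⁅G, G⁆ :=
      Subgroup.commutator_mem_commutator (hHG (inv_mem hh)) (comm_le (inv_mem hd))
    refine ⟨(h⁻¹ * d⁻¹ * h⁻¹⁻¹ * d⁻¹⁻¹) * d⁻¹, mul_mem h1 (inv_mem hd), h⁻¹, inv_mem hh, ?_⟩
    group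

theorem DH_le (hHG : H ≤ G) : DH G H hHG ≤ G := by
  rintro _ ⟨d, hd, h, hh, rfl⟩
  exact mul_mem (comm_le hd) (hHG hh)

theorem le_DH (hHG : H ≤ G) : H ≤ DH G H hHG := fun h hh =>
  ⟨1, one_mem _, h, hh, by rw [one_mul]⟩

theorem comm_le_DH (hHG : H ≤ G) : ⁅G, G⁆ ≤ DH G H hHG := fun d hd =>
  ⟨d, hd, 1, one_mem _, by rw [mul_one]⟩

theorem isClosed_DH (hHG : H ≤ G) (hH : IsClosed (H : Set (unitaryGroup (Fin N) ℂ)))
    (hD : IsClosed ((⁅G, G⁆ : Subgroup (unitaryGroup (Fin N) ℂ)) : Set (unitaryGroup (Fin N) ℂ))) :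
    IsClosed ((DH G H hHG : Subgroup (unitaryGroup (Fin N) ℂ)) :
      Set (unitaryGroup (Fin N) ℂ)) := by
  haveI : CompactSpace (unitaryGroup (Fin N) ℂ) := Pool.LatH472.TTL_compact
  have h1 : IsCompact (((⁅G, G⁆ : Subgroup (unitaryGroup (Fin N) ℂ)) :
      Set (unitaryGroup (Fin N) ℂ)) ×ˢ (H : Set (unitaryGroup (Fin N) ℂ))) :=
    hD.isCompact.prod hH.isCompact
  have h2 := h1.image (continuous_mul (M := unitaryGroup (Fin N) ℂ))
  have h3 : ((DH G H hHG : Subgroup (unitaryGroup (Fin N) ℂ)) : Set (unitaryGroup (Fin N) ℂ)) =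
      (fun q : unitaryGroup (Fin N) ℂ × unitaryGroup (Fin N) ℂ => q.1 * q.2) ''
      (((⁅G, G⁆ : Subgroup (unitaryGroup (Fin N) ℂ)) :
      Set (unitaryGroup (Fin N) ℂ)) ×ˢ (H : Set (unitaryGroup (Fin N) ℂ))) := by
    ext w
    constructor
    · rintro ⟨d, hd, h, hh, rfl⟩
      exact ⟨(d, h), ⟨hd, hh⟩, rfl⟩
    · rintro ⟨⟨d, h⟩, ⟨hd, hh⟩, rfl⟩
      exact ⟨d, hd, h, hh, rfl⟩
  rw [h3]
  exact h2.isClosed

variable (D : Subgroup (unitaryGroup (Fin N) ℂ))

/-- `A(s)` -/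
def A (p : Mat N →ₗ[ℝ] Mat N) (g : InvMetric G H k) (s : ℝ) : Set G :=
  {x | ∃ a : EuclideanSpace ℝ (Fin k), ‖a‖ ≤ s ∧ ∃ d ∈ D,
    ((x : unitaryGroup (Fin N) ℂ) : Mat N) = th p g a * (d : unitaryGroup (Fin N) ℂ)}

variable {D}

theorem A_mono (g : InvMetric G H k) {s t : ℝ} (h : s ≤ t) : A D p g s ⊆ A D p g t := by
  rintro x ⟨a, ha, d, hd, hx⟩
  exact ⟨a, ha.trans h, d, hd, hx⟩

theorem A_mul (hG : IsClosed (G : Set (unitaryGroup (Fin N) ℂ))) (hDG : D ≤ G) (hp : Proj G p)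
    (g : InvMetric G H k) {s t : ℝ} {x y : G} (hx : x ∈ A D p g s)
    (hy : y ∈ A D p g t) : x * y ∈ A D p g (s + t) := by
  obtain ⟨a, ha, d, hd, hx⟩ := hx
  obtain ⟨b, hb, e, he, hy⟩ := hy
  refine ⟨a + b, (norm_add_le _ _).trans (add_le_add ha hb), d * e, mul_mem hd he, ?_⟩
  have h1 : (((x * y : G) : unitaryGroup (Fin N) ℂ) : Mat N) =
      ((x : unitaryGroup (Fin N) ℂ) : Mat N) * ((y : unitaryGroup (Fin N) ℂ) : Mat N) := rfl
  have h2 : ((d * e : unitaryGroup (Fin N) ℂ) : Mat N) = (d : Mat N) * (e : Mat N) := rfl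
  rw [h1, h2, hx, hy, th_add hG hp]
  have h3 := th_comm hG hp g b (hDG hd)
  calc th p g a * (d : Mat N) * (th p g b * (e : Mat N))
      = th p g a * ((d : Mat N) * th p g b) * (e : Mat N) := by simp only [mul_assoc]
    _ = th p g a * (th p g b * d) * (e : Mat N) := by rw [h3]
    _ = th p g a * th p g b * (↑d * ↑e) := by simp only [mul_assoc]

theorem A_inv (hG : IsClosed (G : Set (unitaryGroup (Fin N) ℂ))) (hDG : D ≤ G) (hp : Proj G p)
    (g : InvMetric G H k) {s : ℝ} {x : G} (hx : x ∈ A D p g s) :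
    x⁻¹ ∈ A D p g s := by
  obtain ⟨a, ha, d, hd, hx⟩ := hx
  refine ⟨-a, by rwa [norm_neg], d⁻¹, inv_mem hd, ?_⟩
  have h0 : th p g (-a) * th p g a = 1 := by
    rw [← th_add hG hp, neg_add_cancel, th_zero]
  have h1 : (((x⁻¹ : G) : unitaryGroup (Fin N) ℂ) : Mat N) * ((x : unitaryGroup (Fin N) ℂ) : Mat N) = 1 := by
    have : ((x⁻¹ * x : G) : unitaryGroup (Fin N) ℂ) = 1 := by simp
    exact congrArg (fun u : unitaryGroup (Fin N) ℂ => (u : Mat N)) this
  have h2 : ((d⁻¹ : unitaryGroup (Fin N) ℂ) : Mat N) * (d : Mat N) = 1 := by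
    have : (d⁻¹ * d : unitaryGroup (Fin N) ℂ) = 1 := by simp
    exact congrArg (fun u : unitaryGroup (Fin N) ℂ => (u : Mat N)) this
  have h3 := th_comm hG hp g (-a) (hDG (inv_mem hd))
  have h4 : th p g (-a) * ((d⁻¹ : unitaryGroup (Fin N) ℂ) : Mat N) * ((x : unitaryGroup (Fin N) ℂ) : Mat N) = 1 := by
    rw [hx, ← h3]
    calc ((d⁻¹ : unitaryGroup (Fin N) ℂ) : Mat N) * th p g (-a) * (th p g a * (d : Mat N))
        = ((d⁻¹ : unitaryGroup (Fin N) ℂ) : Mat N) * (th p g (-a) * th p g a) * (d : Mat N) := by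
          simp only [mul_assoc]
      _ = 1 := by rw [h0, mul_one, h2]
  have h5 : ((x : unitaryGroup (Fin N) ℂ) : Mat N) * (((x⁻¹ : G) : unitaryGroup (Fin N) ℂ) : Mat N) = 1 := by
    have : ((x * x⁻¹ : G) : unitaryGroup (Fin N) ℂ) = 1 := by simp
    exact congrArg (fun u : unitaryGroup (Fin N) ℂ => (u : Mat N)) this
  exact left_inv_eq_right_inv h1 h5 |>.trans (left_inv_eq_right_inv h4 h5).symm |> fun h => by
    simpa using h

/-- `exp Z = exp (p Z) d` -/
theorem exp_split (hp : Proj G p) {X : Mat N} (hX : X ∈ LieAlg G) :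
    ∃ d ∈ ⁅G, G⁆, NormedSpace.exp X = NormedSpace.exp (p X) * (d : unitaryGroup (Fin N) ℂ) := by
  obtain ⟨d, hd, hde⟩ := hp.der X hX
  refine ⟨d, hd, ?_⟩
  rw [hde]
  have hc : Commute (p X) (X - p X) :=
    (commute_lie (hp.comm _ hX) hX).sub_right (Commute.refl _)
  rw [← Matrix.exp_add_of_commute _ _ hc]
  congr 1
  abel

theorem lie_mono (hHG : H ≤ G) {Z : Mat N} (hZ : Z ∈ LieAlg H) : Z ∈ LieAlg G := by
  intro t
  obtain ⟨u, hu, hue⟩ := hZ t
  exact ⟨u, hHG hu, hue⟩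

/-- one exponential -/
theorem exp_eq (hG : IsClosed (G : Set (unitaryGroup (Fin N) ℂ))) (hHG : H ≤ G)
    (hH : IsClosed (H : Set (unitaryGroup (Fin N) ℂ))) (hp : Proj G p) (g : InvMetric G H k)
    {X : Mat N} (hX : X ∈ LieAlg G) :
    ∃ d ∈ DH G H hHG, NormedSpace.exp X = th p g (crd g X) * (d : unitaryGroup (Fin N) ℂ) := by
  obtain ⟨d, hd, hde⟩ := exp_split hp hX
  have hZ := (t_B N k G H hH g).2.2.1 X hX
  set Z := X - comb g (crd g X) with hZd
  have hZG := lie_mono hHG hZ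
  obtain ⟨e, he, hee⟩ := exp_split hp hZG
  obtain ⟨u, hu, hue⟩ := hZ 1
  rw [one_smul] at hue
  have hpX : p X = p (comb g (crd g X)) + p Z := by
    rw [hZd, map_sub]
    abel
  have hc : Commute (p (comb g (crd g X))) (p Z) :=
    commute_lie (hp.comm _ (comb_lie hG g _)) (hp.mem _ hZG)
  have h1 : NormedSpace.exp (p X) = th p g (crd g X) * NormedSpace.exp (p Z) := by
    rw [hpX, Matrix.exp_add_of_commute _ _ hc]
    rfl
  have h2 : NormedSpace.exp (p Z) = ((u * e⁻¹ : unitaryGroup (Fin N) ℂ) : Mat N) := by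
    have h3 : (e : Mat N) * ((e⁻¹ : unitaryGroup (Fin N) ℂ) : Mat N) = 1 := by
      have : (e * e⁻¹ : unitaryGroup (Fin N) ℂ) = 1 := by simp
      exact congrArg (fun u : unitaryGroup (Fin N) ℂ => (u : Mat N)) this
    have h4 : ((u * e⁻¹ : unitaryGroup (Fin N) ℂ) : Mat N) =
      (u : Mat N) * ((e⁻¹ : unitaryGroup (Fin N) ℂ) : Mat N) := rfl
    rw [h4, hue, hee, mul_assoc, h3, mul_one]
  refine ⟨u * e⁻¹ * d, mul_mem (mul_mem (le_DH hHG hu) (inv_mem (comm_le_DH hHG he)))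
    (comm_le_DH hHG hd), ?_⟩
  have h5 : ((u * e⁻¹ * d : unitaryGroup (Fin N) ℂ) : Mat N) =
      ((u * e⁻¹ : unitaryGroup (Fin N) ℂ) : Mat N) * (d : Mat N) := rfl
  rw [hde, h1, h2, h5, mul_assoc]

theorem ball_sub (hG : IsClosed (G : Set (unitaryGroup (Fin N) ℂ))) (hHG : H ≤ G)
    (hH : IsClosed (H : Set (unitaryGroup (Fin N) ℂ))) (hp : Proj G p) (g : InvMetric G H k) :
    ∀ (l : List (Mat N)) (_ : ∀ X ∈ l, X ∈ LieAlg G) (x : G),
      (l.map NormedSpace.exp).prod =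
        ((x : unitaryGroup (Fin N) ℂ) : Mat N) →
      x ∈ A (DH G H hHG) p g (l.map (qn g)).sum := by
  intro l
  induction l with
  | nil =>
    intro _ x hx
    refine ⟨0, by simp, 1, one_mem _, ?_⟩
    simp only [List.map_nil, List.prod_nil] at hx
    rw [← hx, th_zero]
    simp
  | cons X l ih =>
    intro hl x hx
    simp only [List.map_cons, List.prod_cons] at hx
    have hX : X ∈ LieAlg G := hl X (by simp)
    obtain ⟨u, hu, hue⟩ := hX 1
    rw [one_smul] at hue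
    have hx2 : (l.map NormedSpace.exp).prod =
        ((((⟨u, hu⟩ : G)⁻¹ * x : G) : unitaryGroup (Fin N) ℂ) : Mat N) := by
      have h1 : ((((⟨u, hu⟩ : G)⁻¹ * x : G) : unitaryGroup (Fin N) ℂ) : Mat N) =
        ((u⁻¹ : unitaryGroup (Fin N) ℂ) : Mat N) * ((x : unitaryGroup (Fin N) ℂ) : Mat N) := rfl
      have h2 : ((u⁻¹ : unitaryGroup (Fin N) ℂ) : Mat N) * (u : Mat N) = 1 := by
        have : (u⁻¹ * u : unitaryGroup (Fin N) ℂ) = 1 := by simp
        exact congrArg (fun u : unitaryGroup (Fin N) ℂ => (u : Mat N)) this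
      rw [h1, ← hx, ← hue, ← mul_assoc, h2, one_mul]
    have h3 := ih (fun Y hY => hl Y (by simp [hY])) _ hx2
    have h4 : (⟨u, hu⟩ : G) ∈ A (DH G H hHG) p g (qn g X) := by
      obtain ⟨d, hd, hde⟩ := exp_eq hG hHG hH hp g hX
      exact ⟨crd g X, le_rfl, d, hd, by rw [← hde, ← hue]⟩
    have h5 := A_mul hG (DH_le hHG) hp g h4 h3
    rw [mul_inv_cancel_left] at h5
    simpa using h5

theorem mem_A_of_ball (hG : IsClosed (G : Set (unitaryGroup (Fin N) ℂ))) (hHG : H ≤ G)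
    (hH : IsClosed (H : Set (unitaryGroup (Fin N) ℂ))) (hp : Proj G p) (g : InvMetric G H k)
    {s : ℝ} (x : G)
    (hx : ((x : unitaryGroup (Fin N) ℂ) : Mat N) ∈ HB g s) : x ∈ A (DH G H hHG) p g s := by
  obtain ⟨l, hl, hs, h, hh, hx⟩ := hx
  have h1 : (l.map NormedSpace.exp).prod =
      (((x * (⟨h, hHG hh⟩ : G)⁻¹ : G) : unitaryGroup (Fin N) ℂ) : Mat N) := by
    have h2 : (((x * (⟨h, hHG hh⟩ : G)⁻¹ : G) : unitaryGroup (Fin N) ℂ) : Mat N) =
      ((x : unitaryGroup (Fin N) ℂ) : Mat N) * ((h⁻¹ : unitaryGroup (Fin N) ℂ) : Mat N) := rfl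
    have h3 : (h : Mat N) * ((h⁻¹ : unitaryGroup (Fin N) ℂ) : Mat N) = 1 := by
      have : (h * h⁻¹ : unitaryGroup (Fin N) ℂ) = 1 := by simp
      exact congrArg (fun u : unitaryGroup (Fin N) ℂ => (u : Mat N)) this
    rw [h2, hx, mul_assoc, h3, mul_one]
  have h4 := ball_sub hG hHG hH hp g l hl _ h1
  have h5 : (⟨h, hHG hh⟩ : G) ∈ A (DH G H hHG) p g 0 :=
    ⟨0, by simp, h, le_DH hHG hh, by rw [th_zero, one_mul]⟩
  have h6 := A_mul hG (DH_le hHG) hp g h4 h5
  rw [inv_mul_cancel_right] at h6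
  exact A_mono g (by linarith) h6

/-- every element lies in some `A(n)` -/
theorem exists_A (hG : IsClosed (G : Set (unitaryGroup (Fin N) ℂ))) (hHG : H ≤ G)
    (hH : IsClosed (H : Set (unitaryGroup (Fin N) ℂ)))
    (hc : IsConnected (G : Set (unitaryGroup (Fin N) ℂ))) (hp : Proj G p)
    (g : InvMetric G H k) (x : G) : ∃ n : ℕ, x ∈ A (DH G H hHG) p g n := by
  obtain ⟨X, hX, hXe⟩ := Pool.LatH472.TTL Pool.LatH472.CST1
    (Pool.LatH472.CST2 Pool.LatH472.CST1) (Fin N) G hG hc x.1 x.2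
  obtain ⟨d, hd, hde⟩ := exp_eq hG hHG hH hp g (mem_of_lat hX)
  obtain ⟨n, hn⟩ := exists_nat_ge ‖crd g X‖
  exact ⟨n, crd g X, hn, d, hd, by rw [← hde, hXe]⟩

/-! ### compactness -/

theorem continuous_th (g : InvMetric G H k) : Continuous (th p g) := by
  unfold th
  have h1 : Continuous (comb g) := (comb g).continuous_of_finiteDimensional
  have h2 : Continuous p := p.continuous_of_finiteDimensional
  exact NormedSpace.exp_continuous.comp (h2.comp h1)

theorem isCompact_A (hG : IsClosed (G : Set (unitaryGroup (Fin N) ℂ)))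
    (hD : IsClosed (D : Set (unitaryGroup (Fin N) ℂ)))
    (g : InvMetric G H k) (s : ℝ) : IsCompact (A D p g s) := by
  haveI : CompactSpace (unitaryGroup (Fin N) ℂ) := Pool.LatH472.TTL_compact
  have hDc : IsCompact (D : Set (unitaryGroup (Fin N) ℂ)) :=
    hD.isCompact
  have hK : IsCompact ((Metric.closedBall (0 : EuclideanSpace ℝ (Fin k)) s) ×ˢ
      (D : Set (unitaryGroup (Fin N) ℂ))) :=
    (isCompact_closedBall _ _).prod hDc
  have hcont : Continuous fun q : EuclideanSpace ℝ (Fin k) × unitaryGroup (Fin N) ℂ =>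
      th p g q.1 * (q.2 : Mat N) :=
    ((continuous_th g).comp continuous_fst).mul (continuous_subtype_val.comp continuous_snd)
  have him := hK.image hcont
  -- preimage under the closed embedding `G → Mat`
  have hemb : Topology.IsClosedEmbedding (fun x : G => ((x : unitaryGroup (Fin N) ℂ) : Mat N)) := by
    haveI : CompactSpace G := isCompact_iff_compactSpace.1 hG.isCompact
    refine (Continuous.isClosedEmbedding (continuous_subtype_val.comp continuous_subtype_val) ?_)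
    exact Subtype.val_injective.comp Subtype.val_injective
  have : A D p g s = (fun x : G => ((x : unitaryGroup (Fin N) ℂ) : Mat N)) ⁻¹'
      ((fun q : EuclideanSpace ℝ (Fin k) × unitaryGroup (Fin N) ℂ =>
      th p g q.1 * (q.2 : Mat N)) '' ((Metric.closedBall (0 : EuclideanSpace ℝ (Fin k)) s) ×ˢ
      (D : Set (unitaryGroup (Fin N) ℂ)))) := by
    ext x
    constructor
    · rintro ⟨a, ha, d, hd, hx⟩
      exact ⟨(a, d), ⟨by simpa using ha, hd⟩, hx.symm⟩
    · rintro ⟨⟨a, d⟩, ⟨ha, hd⟩, hx⟩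
      exact ⟨a, by simpa using ha, d, hd, hx.symm⟩
  rw [this]
  exact hemb.isCompact_preimage him

section measure

variable [MeasurableSpace G] [BorelSpace G] (μ : Measure G) [IsProbabilityMeasure μ]
    [μ.IsMulRightInvariant]

/-- doubling -/
theorem doubling (hG : IsClosed (G : Set (unitaryGroup (Fin N) ℂ))) (hDG : D ≤ G)
    (hp : Proj G p) (g : InvMetric G H k) {s : ℝ} (hs : 0 < s) :
    μ.real (A D p g (2 * s)) ≤ 5 ^ k * μ.real (A D p g s) := by
  classical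
  obtain ⟨J, hJ, hcov⟩ := exists_cover k s hs
  choose u hu hue using fun c : EuclideanSpace ℝ (Fin k) => th_mem hG hp g c
  have hsub : A D p g (2 * s) ⊆
      ⋃ c ∈ J, (fun x : G => x * (⟨u c, hu c⟩ : G)⁻¹) ⁻¹' (A D p g s) := by
    rintro x ⟨a, ha, d, hd, hx⟩
    obtain ⟨c, hc, hac⟩ := hcov a ha
    simp only [Set.mem_iUnion]
    refine ⟨c, hc, a - c, hac, d, hd, ?_⟩
    have h1 : (((x * (⟨u c, hu c⟩ : G)⁻¹ : G) : unitaryGroup (Fin N) ℂ) : Mat N) =
        ((x : unitaryGroup (Fin N) ℂ) : Mat N) * (((u c)⁻¹ : unitaryGroup (Fin N) ℂ) : Mat N) := rfl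
    have h2 : (u c : Mat N) * (((u c)⁻¹ : unitaryGroup (Fin N) ℂ) : Mat N) = 1 := by
      have : (u c * (u c)⁻¹ : unitaryGroup (Fin N) ℂ) = 1 := by simp
      exact congrArg (fun u : unitaryGroup (Fin N) ℂ => (u : Mat N)) this
    have h3 : th p g a = th p g (a - c) * th p g c := by
      rw [← th_add hG hp, sub_add_cancel]
    have h4 := th_comm hG hp g c (hDG hd)
    rw [h1, hx, h3]
    calc th p g (a - c) * th p g c * (d : Mat N) * (((u c)⁻¹ : unitaryGroup (Fin N) ℂ) : Mat N)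
        = th p g (a - c) * (th p g c * (d : Mat N)) * (((u c)⁻¹ : unitaryGroup (Fin N) ℂ) : Mat N) := by
          simp only [mul_assoc]
      _ = th p g (a - c) * ((d : Mat N) * th p g c) * (((u c)⁻¹ : unitaryGroup (Fin N) ℂ) : Mat N) := by
          rw [h4]
      _ = th p g (a - c) * (d : Mat N) * (th p g c * (((u c)⁻¹ : unitaryGroup (Fin N) ℂ) : Mat N)) := by
          simp only [mul_assoc]
      _ = th p g (a - c) * (d : Mat N) := by
          rw [← hue c, h2, mul_one]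
  calc μ.real (A D p g (2 * s))
      ≤ μ.real (⋃ c ∈ J, (fun x : G => x * (⟨u c, hu c⟩ : G)⁻¹) ⁻¹' (A D p g s)) :=
        measureReal_mono hsub (measure_ne_top _ _)
    _ ≤ ∑ c ∈ J, μ.real ((fun x : G => x * (⟨u c, hu c⟩ : G)⁻¹) ⁻¹' (A D p g s)) :=
        measureReal_biUnion_finset_le _ _
    _ = ∑ c ∈ J, μ.real (A D p g s) := by
        refine Finset.sum_congr rfl fun c _ => ?_
        simp only [Measure.real]
        rw [measure_preimage_mul_right]
    _ = J.card * μ.real (A D p g s) := by rw [Finset.sum_const, nsmul_eq_mul]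
    _ ≤ 5 ^ k * μ.real (A D p g s) := by
        gcongr
        exact_mod_cast hJ

include μ in
/-- `A(R)` is everything for large `R` -/
theorem exists_univ (hG : IsClosed (G : Set (unitaryGroup (Fin N) ℂ))) (hHG : H ≤ G)
    (hH : IsClosed (H : Set (unitaryGroup (Fin N) ℂ)))
    (hc : IsConnected (G : Set (unitaryGroup (Fin N) ℂ))) (hp : Proj G p)
    (hD : IsClosed ((⁅G, G⁆ : Subgroup (unitaryGroup (Fin N) ℂ)) : Set (unitaryGroup (Fin N) ℂ)))
    (g : InvMetric G H k) : ∃ R : ℝ, 0 < R ∧ A (DH G H hHG) p g R = Set.univ := by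
  have hmono : Monotone fun n : ℕ => A (DH G H hHG) p g n :=
    fun a b hab => A_mono g (by exact_mod_cast hab)
  have hU : (⋃ n : ℕ, A (DH G H hHG) p g n) = Set.univ := by
    rw [Set.eq_univ_iff_forall]
    intro x
    obtain ⟨n, hn⟩ := exists_A hG hHG hH hc hp g x
    exact Set.mem_iUnion.2 ⟨n, hn⟩
  have hlim := tendsto_measure_iUnion_atTop (μ := μ) hmono
  rw [hU, measure_univ] at hlim
  have hev := hlim.eventually (lt_mem_nhds (show (1 / 2 : ENNReal) < 1 by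
    exact ENNReal.half_lt_self (by simp) (by simp)))
  obtain ⟨n, hn⟩ := hev.exists
  have hn' : (1 / 2 : ENNReal) < μ (A (DH G H hHG) p g n) := hn
  refine ⟨2 * (n + 1 : ℝ), by positivity, ?_⟩
  rw [Set.eq_univ_iff_forall]
  intro x
  -- `A(n)` and `A(n) x` intersect
  have hmeas : MeasurableSet (A (DH G H hHG) p g n) :=
    (isCompact_A hG (isClosed_DH hHG hH hD) g n).measurableSet
  by_contra hx
  have hdisj : Disjoint (A (DH G H hHG) p g n)
      ((fun y : G => y * x⁻¹) ⁻¹' (A (DH G H hHG) p g n)) := by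
    rw [Set.disjoint_left]
    intro y hy hy2
    apply hx
    have h1 := A_inv hG (DH_le hHG) hp g hy2
    have h2 := A_mul hG (DH_le hHG) hp g h1 hy
    have h3 : (y * x⁻¹)⁻¹ * y = x := by group
    rw [h3] at h2
    exact A_mono g (by linarith) h2
  have h4 : μ (A (DH G H hHG) p g n ∪ (fun y : G => y * x⁻¹) ⁻¹' (A (DH G H hHG) p g n)) =
      μ (A (DH G H hHG) p g n) + μ (A (DH G H hHG) p g n) := by
    rw [measure_union' hdisj hmeas, measure_preimage_mul_right]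
  have h5 : μ (A (DH G H hHG) p g n ∪ (fun y : G => y * x⁻¹) ⁻¹' (A (DH G H hHG) p g n)) ≤ 1 :=
    prob_le_one
  rw [h4] at h5
  have h6 : (1 : ENNReal) < μ (A (DH G H hHG) p g n) + μ (A (DH G H hHG) p g n) := by
    calc (1 : ENNReal) = 1 / 2 + 1 / 2 := (ENNReal.add_halves 1).symm
      _ < μ (A (DH G H hHG) p g n) + μ (A (DH G H hHG) p g n) := ENNReal.add_lt_add hn' hn'
  exact absurd h5 (not_le.2 h6)

end measure

theorem t_T (hTS : Pool.Agent.Y896.HS.S_TS) : Pool.Agent.Y896.HS.S_T := by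
  intro N G hG hc p hp1 hp2 hD
  have hp : Proj G p := ⟨fun X hX => (hp1 X hX).1, fun X hX => (hp1 X hX).2, hp2⟩
  set K := Module.finrank ℝ (Mat N) with hK
  refine ⟨16 * K * 5 ^ (3 * K), ?_⟩
  rintro H hHG hH m g r hr ⟨x, hx, hxr⟩
  have hmK : m ≤ K := by
    have := g.indep.fintype_card_le_finrank
    simpa using this
  have hDc := isClosed_DH hHG hH hD
  letI : MeasurableSpace G := borel G
  haveI : BorelSpace G := ⟨rfl⟩
  obtain ⟨μ, hμ1, hμ2, hμ3⟩ := exists_measure (G := G) hG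
  obtain ⟨R₀, hR₀, hR₀u⟩ := exists_univ μ hG hHG hH hc hp hD g
  have hxA : (⟨x, hx⟩ : G) ∉ A (DH G H hHG) p g r := by
    rintro ⟨a, ha, w, ⟨d, hd, h, hh, rfl⟩, he⟩
    refine hxr a ha d hd h hh ?_
    have e1 : ((d * h : unitaryGroup (Fin N) ℂ) : Mat N) = (d : Mat N) * (h : Mat N) := rfl
    rw [e1] at he
    rw [mul_assoc]
    exact he
  -- the first power of two
  have hex : ∃ k : ℕ, A (DH G H hHG) p g (r * 2 ^ k) = Set.univ := by
    obtain ⟨k, hk⟩ := pow_unbounded_of_one_lt (R₀ / r) (one_lt_two)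
    refine ⟨k, ?_⟩
    rw [Set.eq_univ_iff_forall]
    intro y
    have : y ∈ A (DH G H hHG) p g R₀ := by rw [hR₀u]; trivial
    refine A_mono g ?_ this
    rw [div_lt_iff₀ hr] at hk
    linarith
  classical
  obtain ⟨k, hk1, hk2⟩ : ∃ k : ℕ, A (DH G H hHG) p g (r * 2 ^ (k + 1)) = Set.univ ∧
      A (DH G H hHG) p g (r * 2 ^ k) ≠ Set.univ := by
    have hne : Nat.find hex ≠ 0 := by
      intro h0
      have := Nat.find_spec hex
      rw [h0, pow_zero, mul_one] at this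
      apply hxA
      rw [this]
      trivial
    obtain ⟨k, hk⟩ := Nat.exists_eq_succ_of_ne_zero hne
    refine ⟨k, ?_, ?_⟩
    · have := Nat.find_spec hex
      rwa [hk] at this
    · exact Nat.find_min hex (by omega)
  set R := r * 2 ^ (k + 1) with hR
  have hRr : 2 * r ≤ R := by
    rw [hR, pow_succ]
    have : (1 : ℝ) ≤ 2 ^ k := one_le_pow₀ one_le_two
    nlinarith
  have hRpos : 0 < R := by linarith
  have hR2 : A (DH G H hHG) p g (R / 2) ≠ Set.univ := by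
    have : R / 2 = r * 2 ^ k := by
      rw [hR, pow_succ]
      ring
    rwa [this]
  obtain ⟨y, hy⟩ := (Set.ne_univ_iff_exists_notMem _).1 hR2
  have hd1 := doubling μ hG (DH_le hHG) hp g (s := R / 2) (by linarith)
  have hd2 := doubling μ hG (DH_le hHG) hp g (s := R / 4) (by linarith)
  have hd3 := doubling μ hG (DH_le hHG) hp g (s := R / 8) (by linarith)
  rw [show 2 * (R / 2) = R by ring, hk1, probReal_univ] at hd1
  rw [show 2 * (R / 4) = R / 2 by ring] at hd2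
  rw [show 2 * (R / 8) = R / 4 by ring] at hd3
  have h5 : (0 : ℝ) < 5 ^ m := by positivity
  have hv : 1 ≤ 5 ^ (3 * m) * μ.real (A (DH G H hHG) p g (R / 8)) := by
    have e : (5 : ℝ) ^ (3 * m) = 5 ^ m * (5 ^ m * 5 ^ m) := by
      rw [← pow_add, ← pow_add]
      congr 1
      ring
    rw [e]
    calc (1 : ℝ) ≤ 5 ^ m * μ.real (A (DH G H hHG) p g (R / 2)) := hd1
      _ ≤ 5 ^ m * (5 ^ m * μ.real (A (DH G H hHG) p g (R / 4))) := by gcongr
      _ ≤ 5 ^ m * (5 ^ m * (5 ^ m * μ.real (A (DH G H hHG) p g (R / 8)))) := by gcongr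
      _ = 5 ^ m * (5 ^ m * 5 ^ m) * μ.real (A (DH G H hHG) p g (R / 8)) := by ring
  set v : ℝ := (5 ^ (3 * m))⁻¹ with hvdef
  have h53 : (0 : ℝ) < 5 ^ (3 * m) := by positivity
  have hvpos : 0 < v := by positivity
  have hv1 : v ≤ μ.real (A (DH G H hHG) p g (R / 8)) := by
    rw [hvdef, inv_le_iff_one_le_mul₀ h53]
    linarith
  have hmeas : MeasurableSet (A (DH G H hHG) p g (R / 8)) :=
    (isCompact_A hG hDc g _).measurableSet
  have hmeas' : MeasurableSet ((fun z : G => z * y⁻¹) ⁻¹' (A (DH G H hHG) p g (R / 8))) :=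
    (measurable_mul_const y⁻¹) hmeas
  have hv2 : v ≤ μ.real ((fun z : G => z * y⁻¹) ⁻¹' (A (DH G H hHG) p g (R / 8))) := by
    have : μ.real ((fun z : G => z * y⁻¹) ⁻¹' (A (DH G H hHG) p g (R / 8))) =
        μ.real (A (DH G H hHG) p g (R / 8)) := by
      simp only [Measure.real]
      rw [measure_preimage_mul_right]
    rw [this]
    exact hv1
  obtain ⟨lam, hl1, hl2, hl3⟩ := hTS N m G H hG hc hHG hH g μ (A (DH G H hHG) p g (R / 8))
    ((fun z : G => z * y⁻¹) ⁻¹' (A (DH G H hHG) p g (R / 8))) hmeas hmeas' (R / 4) v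
    (by linarith) hvpos hv1 hv2
    (by
      intro a ha b hb s hs hball
      have h1 := mem_A_of_ball hG hHG hH hp g (a⁻¹ * b) hball
      have h2 : b * y⁻¹ ∈ A (DH G H hHG) p g (R / 8) := hb
      have h3 := A_mul hG (DH_le hHG) hp g
        (A_mul hG (DH_le hHG) hp g (A_inv hG (DH_le hHG) hp g h2) ha) h1
      have h4 : (b * y⁻¹)⁻¹ * a * (a⁻¹ * b) = y := by group
      rw [h4] at h3
      exact hy (A_mono g (by linarith) h3))
  refine ⟨lam, hl1, ?_, hl3⟩
  have h6 : lam * R ^ 2 ≤ 64 * m * 5 ^ (3 * m) := by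
    have h7 : lam * (v * (R / 4) ^ 2) * (16 * 5 ^ (3 * m)) ≤ 4 * m * (16 * 5 ^ (3 * m)) := by
      gcongr
    have h8 : lam * (v * (R / 4) ^ 2) * (16 * 5 ^ (3 * m)) = lam * R ^ 2 := by
      rw [hvdef]
      field_simp
      ring
    rw [h8] at h7
    linarith
  have h9 : lam * r ^ 2 ≤ 16 * m * 5 ^ (3 * m) := by
    have : (2 * r) ^ 2 ≤ R ^ 2 := by gcongr
    nlinarith
  calc lam * r ^ 2 ≤ 16 * m * 5 ^ (3 * m) := h9
    _ ≤ 16 * K * 5 ^ (3 * K) := by
      have : (m : ℝ) ≤ K := by exact_mod_cast hmK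
      gcongr
      norm_num

end Pool.Agent.Y170.HS
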